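import Pool.Agent.Helper28K1.SY.F

/-!
# Sylvester's problem for iterated joins and free sums of planar convex bodies

In every dimension `n`, Sylvester's functional of a convex body `K` in `ℝ^n` is at most its value at
a simplex, provided that `K` is obtained from points and convex bodies of dimension at most two by
finitely many joins and free sums, in any order. A free sum is the convex hull of the union of two
convex sets with a common point, which may be any common point, whose directions are linearly
independent; in a join the two sets have no common point and the dimension is `d + d' + 1`. Among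
the polytopes of this class only the simplices attain the value of the simplex.
-/

set_option autoImplicit false

open MeasureTheory

namespace Pool.Agent.Results.MP_a8433b_co.JoinsFreeSums

/-- the Euclidean space `ℝ^n` -/
abbrev E (n : ℕ) : Type := EuclideanSpace ℝ (Fin n)

/-- Sylvester's functional `(n + 2) / vol(K)^(n+2) ∫_{K^(n+1)} vol(conv(x_0, ..., x_n)) dx`: for a
convex body `K` this is the probability that one of `n + 2` independent uniform points of `K` lies
in the convex hull of the others. -/
noncomputable def sylv {n : ℕ} (K : Set (E n)) : ℝ :=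
  ((n : ℝ) + 2) / volume.real K ^ (n + 2) *
    ∫ x in Set.pi Set.univ (fun _ : Fin (n + 1) => K),
      volume.real (convexHull ℝ (Set.range x))

/-- the standard simplex -/
def simplex (n : ℕ) : Set (E n) := {z | (∀ i, 0 ≤ z i) ∧ ∑ i, z i ≤ 1}

/-- `JoinSum n d S`: the set `S ⊆ ℝ^n` is a union of points and of compact subsets of planes, and
`conv S` is built from the convex hulls of these pieces by joins and free sums. The number `d`
counts the dimension: `0` for a point, `2` for a planar piece, `d + d' + 1` for a join, and
`d + d'` for a free sum, that is, for two sets whose convex hulls have a common point. -/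
inductive JoinSum (n : ℕ) : ℕ → Set (E n) → Prop
  | point (x : E n) : JoinSum n 0 {x}
  | planar {S : Set (E n)} (P : AffineSubspace ℝ (E n))
      (hP : Module.finrank ℝ P.direction ≤ 2) (hSP : S ⊆ P) (hS : IsCompact S) : JoinSum n 2 S
  | join {d d' : ℕ} {S S' : Set (E n)} (h : JoinSum n d S)
      (h' : JoinSum n d' S') : JoinSum n (d + d' + 1) (S ∪ S')
  | sum {d d' : ℕ} {S S' : Set (E n)} (h : JoinSum n d S)
      (h' : JoinSum n d' S') (hSS' : (convexHull ℝ S ∩ convexHull ℝ S').Nonempty) :
      JoinSum n (d + d') (S ∪ S')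

/-- the same class in the helper modules -/
lemma JoinSum.toHelper {n : ℕ} {d : ℕ} {S : Set (E n)}
    (h : JoinSum n d S) : Pool.Agent.Helper57K1.FS.JoinSum n d S := by
  induction h with
  | point x => exact .point x
  | planar P hP hSP hS => exact .planar P hP hSP hS
  | join _ _ ih ih' => exact .join ih ih'
  | sum _ _ hSS' ih ih' => exact .sum ih ih' hSS'

/-- for example, the vertices of the cross-polytope of dimension `k + 1` in `ℝ^n` -/
lemma JoinSum.cross {n : ℕ} (k : ℕ) (hk : k < n) :
    JoinSum n (k + 1) {x | ∃ i : Fin n, (i : ℕ) ≤ k ∧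
      (x = EuclideanSpace.single i 1 ∨ x = -EuclideanSpace.single i 1)} := by
  have key : ∀ (j : Fin n) (T : Set (E n)),
      T = {EuclideanSpace.single j 1} ∪ {-EuclideanSpace.single j 1} →
      JoinSum n 1 T ∧ (0 : E n) ∈ convexHull ℝ T := by
    rintro j T rfl
    refine ⟨.join (.point _) (.point _), ?_⟩
    have h := convex_convexHull ℝ ({EuclideanSpace.single j (1 : ℝ)} ∪
      {-EuclideanSpace.single j (1 : ℝ)} : Set (E n))
      (subset_convexHull ℝ _ (Or.inl rfl)) (subset_convexHull ℝ _ (Or.inr rfl))
      (show (0 : ℝ) ≤ 1 / 2 by norm_num) (show (0 : ℝ) ≤ 1 / 2 by norm_num) (by norm_num)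
    simpa using h
  induction k with
  | zero =>
    refine (key ⟨0, hk⟩ _ ?_).1
    ext x
    constructor
    · rintro ⟨i, hi, h⟩
      have hi0 : i = ⟨0, hk⟩ := Fin.ext (Nat.le_zero.1 hi)
      rw [← hi0]
      exact h
    · intro h
      exact ⟨⟨0, hk⟩, le_rfl, h⟩
  | succ k ih =>
    have e : {x : E n | ∃ i : Fin n, (i : ℕ) ≤ k + 1 ∧
        (x = EuclideanSpace.single i 1 ∨ x = -EuclideanSpace.single i 1)} =
        {x | ∃ i : Fin n, (i : ℕ) ≤ k ∧
          (x = EuclideanSpace.single i 1 ∨ x = -EuclideanSpace.single i 1)} ∪
        ({EuclideanSpace.single ⟨k + 1, hk⟩ 1} ∪ {-EuclideanSpace.single ⟨k + 1, hk⟩ 1}) := by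
      ext x
      constructor
      · rintro ⟨i, hi, h⟩
        rcases Nat.lt_or_ge k (i : ℕ) with h1 | h1
        · have hi0 : i = ⟨k + 1, hk⟩ := Fin.ext (le_antisymm hi h1)
          right
          rw [← hi0]
          exact h
        · exact Or.inl ⟨i, h1, h⟩
      · rintro (⟨i, hi, h⟩ | h)
        · exact ⟨i, hi.trans (Nat.le_succ k), h⟩
        · exact ⟨⟨k + 1, hk⟩, le_rfl, h⟩
    rw [e]
    refine .sum (ih (by omega)) (key ⟨k + 1, hk⟩ _ rfl).1 ⟨0, ?_, (key ⟨k + 1, hk⟩ _ rfl).2⟩
    refine convexHull_mono ?_ (key ⟨0, by omega⟩ _ rfl).2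
    intro x hx
    exact ⟨⟨0, by omega⟩, Nat.zero_le _, hx⟩

/-- **Sylvester's functional is at most its value at a simplex, for all convex bodies built from
points and planar convex bodies by joins and free sums; a polytope of this class attains this value
if and only if it is a simplex.** -/
theorem result {n : ℕ} {d : ℕ} {S : Set (E n)} (hS : JoinSum n d S) (hd : d ≤ n)
    (hK : (interior (convexHull ℝ S)).Nonempty) :
    sylv (convexHull ℝ S) ≤ sylv (simplex n) ∧
    ∀ G : Finset (E n), convexHull ℝ S = convexHull ℝ (G : Set (E n)) →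
      (sylv (convexHull ℝ S) = sylv (simplex n) ↔
        ∃ s : Fin (n + 1) → E n, convexHull ℝ S = convexHull ℝ (Set.range s)) :=
  ⟨Pool.Agent.Helper28K1.SY.sylv_le hS.toHelper hd hK,
    fun _ hG => Pool.Agent.Helper28K1.SY.sylv_eq_iff hS.toHelper hd hK hG⟩

end Pool.Agent.Results.MP_a8433b_co.JoinsFreeSums
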